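import Pool.Agent.Y58.TFP.Main

set_option autoImplicit false
set_option linter.unusedSectionVars false

/-!
The case of no torsion, and change of fields.
-/

namespace Pool.Agent.Y58.TFP

open Pool.Agent.Y58.TFS

lemma PN_empty {n : ℕ} (hn : 0 < n) (h : PN ∅ n) : n = 1 := by
  by_contra h1
  obtain ⟨q, hq, hqn⟩ := Nat.exists_prime_and_dvd h1
  exact h q hq hqn

lemma fineP_of_fine {G : Type*} [Group G] (h : Fine G) : FineP ∅ G := by
  refine ⟨h.ct, h.nt, ?_, h.four⟩
  intro n hn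
  constructor
  · rintro ⟨g, hg⟩
    have hfin : IsOfFinOrder g := orderOf_pos_iff.1 (by rw [hg]; exact hn)
    have h1 : g = 1 := by
      by_contra h1
      exact h.tf g h1 hfin
    rw [← hg, h1, orderOf_one]
    exact PN.one
  · intro h1
    exact ⟨1, by rw [orderOf_one, PN_empty hn h1]⟩

theorem exists_fineP {Ω : Type*} [Field Ω] [IsAlgClosed Ω] [Uncountable Ω] [CharZero Ω]
    {P : Set ℕ} (hP : ∀ p ∈ P, p.Prime ∧ p ≠ 2) :
    ∃ (G : Subgroup (Matrix.GeneralLinearGroup (Fin 3) Ω)) (K : Subfield Ω),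
    Countable K ∧ (∀ g ∈ G, ∀ i j, (g : Matrix (Fin 3) (Fin 3) Ω) i j ∈ K) ∧ FineP P G := by
  rcases Set.eq_empty_or_nonempty P with rfl | ⟨p₀, hp₀⟩
  · obtain ⟨G, K, h1, h2, h3⟩ := exists_fine (Ω := Ω)
    exact ⟨G, K, h1, h2, fineP_of_fine h3⟩
  · exact exists_fineP_nonempty hP hp₀

/-- change of fields -/
theorem transportP {P : Set ℕ} {Ω : Type*} [Field Ω] {K : Subfield Ω}
    {G : Subgroup (Matrix.GeneralLinearGroup (Fin 3) Ω)}
    (hent : ∀ g ∈ G, ∀ i j, (g : Matrix (Fin 3) (Fin 3) Ω) i j ∈ K) (hG : FineP P G)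
    {Ω' : Type*} [Field Ω'] (φ : K →+* Ω') :
    ∃ G' : Subgroup (Matrix.GeneralLinearGroup (Fin 3) Ω'), FineP P G' := by
  set ψ : Matrix.GeneralLinearGroup (Fin 3) K →* Matrix.GeneralLinearGroup (Fin 3) Ω :=
    Matrix.GeneralLinearGroup.map K.subtype with hψ
  have hle : G ≤ ψ.range := by
    intro g hg
    let A : Matrix (Fin 3) (Fin 3) K := fun i j => ⟨_, hent g hg i j⟩
    let B : Matrix (Fin 3) (Fin 3) K := fun i j => ⟨_, hent g⁻¹ (G.inv_mem hg) i j⟩
    have hA : K.subtype.mapMatrix A = (g : Matrix (Fin 3) (Fin 3) Ω) := by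
      ext i j
      rfl
    have hB : K.subtype.mapMatrix B = ((g⁻¹ : Matrix.GeneralLinearGroup (Fin 3) Ω) :
        Matrix (Fin 3) (Fin 3) Ω) := by
      ext i j
      rfl
    have hm : Function.Injective (K.subtype.mapMatrix (m := Fin 3)) := by
      intro M N h
      ext i j
      exact congrFun (congrFun h i) j
    have hAB : A * B = 1 := by
      apply hm
      rw [map_mul, hA, hB, map_one, ← Units.val_mul, mul_inv_cancel, Units.val_one]
    have hBA : B * A = 1 := by
      apply hm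
      rw [map_mul, hA, hB, map_one, ← Units.val_mul, inv_mul_cancel, Units.val_one]
    refine ⟨⟨A, B, hAB, hBA⟩, ?_⟩
    apply Units.ext
    exact hA
  have e1 : (G.comap ψ).map ψ = G := Subgroup.map_comap_eq_self hle
  have h1 : FineP P (G.comap ψ) := by
    have h2 : FineP P ((G.comap ψ).map ψ) := by rw [e1]; exact hG
    exact h2.of_equiv ((G.comap ψ).equivMapOfInjective ψ (glmap_inj _)).symm
  exact ⟨(G.comap ψ).map (Matrix.GeneralLinearGroup.map φ),
    h1.of_equiv ((G.comap ψ).equivMapOfInjective _ (glmap_inj φ))⟩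

/-- algebraically closed fields of characteristic zero and infinite transcendence degree -/
theorem exists_fineP_of_indep {P : Set ℕ} (hP : ∀ p ∈ P, p.Prime ∧ p ≠ 2) {Ω : Type*}
    [Field Ω] [IsAlgClosed Ω] [Algebra ℚ Ω] {x : ℕ → Ω} (hx : AlgebraicIndependent ℚ x) :
    ∃ G : Subgroup (Matrix.GeneralLinearGroup (Fin 3) Ω), FineP P G := by
  have hun : Uncountable ℂ := by
    have hf : Function.Injective ((↑) : ℝ → ℂ) := Complex.ofReal_injective
    exact hf.uncountable
  obtain ⟨G, K, hcK, hent, hG⟩ := exists_fineP (Ω := ℂ) hP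
  obtain ⟨φ⟩ := embed (E := K) hx
  exact transportP hent hG φ

lemma FineP.inj {P P' : Set ℕ} (hP : ∀ p ∈ P, p.Prime) (hP' : ∀ p ∈ P', p.Prime)
    {G G' : Type*} [Group G] [Group G'] (h : FineP P G) (h' : FineP P' G') (e : G ≃* G') :
    P = P' := by
  have h1 := h.of_equiv e
  have key : ∀ p : ℕ, p.Prime → (PN P p ↔ p ∈ P) := fun p hp =>
    ⟨fun h => h p hp dvd_rfl, fun h => PN.prime hp h⟩
  have key' : ∀ p : ℕ, p.Prime → (PN P' p ↔ p ∈ P') := fun p hp =>
    ⟨fun h => h p hp dvd_rfl, fun h => PN.prime hp h⟩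
  ext p
  constructor
  · intro hp
    have hpp := hP p hp
    rw [← key' p hpp, ← h'.tor p hpp.pos, h1.tor p hpp.pos, key p hpp]
    exact hp
  · intro hp
    have hpp := hP' p hp
    rw [← key p hpp, ← h1.tor p hpp.pos, h'.tor p hpp.pos, key' p hpp]
    exact hp

end Pool.Agent.Y58.TFP
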