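import Pool.Agent.Y58.TFS.Main

set_option autoImplicit false
set_option linter.unusedSectionVars false

/-!
The base field: it contains the roots of unity of order prime to `P` and the quotients
`(z - z⁻¹) / d` and `z + z⁻¹` for the roots of unity `z` whose order is a `P`-number.
-/

namespace Pool.Agent.Y58.TFP

open Polynomial Pool.Agent.Y58.TFS

/-- all prime divisors of `n` lie in `P` -/
def PN (P : Set ℕ) (n : ℕ) : Prop := ∀ q : ℕ, q.Prime → q ∣ n → q ∈ P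

variable {P : Set ℕ} {m n : ℕ}

lemma PN.mul (hm : PN P m) (hn : PN P n) : PN P (m * n) := fun q hq h =>
  (hq.dvd_mul.1 h).elim (hm q hq) (hn q hq)

lemma PN.dvd (hn : PN P n) (h : m ∣ n) : PN P m := fun q hq h' => hn q hq (h'.trans h)

lemma PN.one : PN P 1 := fun _ hq h => absurd (Nat.dvd_one.1 h) hq.ne_one

lemma PN.prime {q : ℕ} (hq : q.Prime) (h : q ∈ P) : PN P q := fun r hr hd => by
  rw [(Nat.prime_dvd_prime_iff_eq hr hq).1 hd]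
  exact h

lemma PN.coprime (hm : PN P m) (hn : PN Pᶜ n) : Nat.Coprime m n :=
  Nat.coprime_of_dvd fun q hq h1 h2 => hn q hq h2 (hm q hq h1)

lemma split (P : Set ℕ) : ∀ N : ℕ, N ≠ 0 → ∃ A B, N = A * B ∧ PN P A ∧ PN Pᶜ B := by
  classical
  intro N
  induction N using induction_on_primes with
  | zero => intro h; exact absurd rfl h
  | one => intro _; exact ⟨1, 1, rfl, PN.one, PN.one⟩
  | prime_mul p a hp ih =>
    intro h
    obtain ⟨A, B, rfl, hA, hB⟩ := ih (fun h0 => h (by rw [h0, mul_zero]))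
    by_cases hpP : p ∈ P
    · exact ⟨p * A, B, by ring, (PN.prime hp hpP).mul hA, hB⟩
    · exact ⟨A, p * B, by ring, hA, (PN.prime (P := Pᶜ) hp hpP).mul hB⟩

variable {E : Type*} [Field E] [CharZero E] [IsAlgClosed E] [Algebra.IsAlgebraic ℚ E]

/-- automorphisms which invert the roots of unity of `P`-order dividing `N` and fix those of
`P'`-order dividing `N` -/
def GA {E : Type*} [Field E] [CharZero E] (P : Set ℕ) (N : ℕ) (σ : E ≃ₐ[ℚ] E) : Prop := ∀ z : E, z ^ N = 1 →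
  ((∃ n, 0 < n ∧ PN P n ∧ z ^ n = 1) → σ z = z⁻¹) ∧
    ((∃ n, 0 < n ∧ PN Pᶜ n ∧ z ^ n = 1) → σ z = z)

omit [Algebra.IsAlgebraic ℚ E] in
variable (E) in
lemma exists_prim (n : ℕ) (hn : n ≠ 0) : ∃ z : E, IsPrimitiveRoot z n := by
  have : NeZero n := ⟨hn⟩
  have : NeZero (n : E) := ⟨by exact_mod_cast hn⟩
  exact HasEnoughRootsOfUnity.exists_primitiveRoot E n

variable (E) in
lemma exists_GA (P : Set ℕ) (N : ℕ) (hN : N ≠ 0) : ∃ σ : E ≃ₐ[ℚ] E, GA P N σ := by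
  obtain ⟨A, B, hAB, hA, hB⟩ := split P N hN
  have hA0 : A ≠ 0 := fun h => hN (by rw [hAB, h, zero_mul])
  have hB0 : B ≠ 0 := fun h => hN (by rw [hAB, h, mul_zero])
  have hco : Nat.Coprime A B := hA.coprime hB
  obtain ⟨u, hu1, hu2⟩ := Nat.chineseRemainder hco (A - 1) 1
  have hu1' : A ∣ u + 1 := by
    have h := hu1.add_right 1
    rw [Nat.sub_add_cancel (Nat.one_le_iff_ne_zero.2 hA0)] at h
    exact (Nat.modEq_zero_iff_dvd.1 (h.trans (by simp [Nat.ModEq])))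
  have huN : Nat.Coprime u N := by
    rw [hAB]
    refine Nat.Coprime.mul_right ?_ ?_
    · obtain ⟨k, hk⟩ := hu1'
      refine Nat.coprime_of_dvd fun q hq h1 h2 => ?_
      have h3 : q ∣ u + 1 := by rw [hk]; exact h2.mul_right k
      exact hq.one_lt.ne' (Nat.dvd_one.1 ((Nat.dvd_add_right h1).1 h3))
    · have h : Nat.gcd B u = Nat.gcd B 1 := by
        rw [Nat.gcd_comm B u, Nat.gcd_comm B 1]
        exact hu2.gcd_eq
      rw [Nat.coprime_comm, Nat.Coprime, h, Nat.gcd_one_right]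
  obtain ⟨ζ, hζ⟩ := exists_prim E N hN
  have hζu : IsPrimitiveRoot (ζ ^ u) N := hζ.pow_of_coprime u huN
  have hconj : IsConjRoot ℚ (ζ ^ u) ζ := by
    rw [isConjRoot_def, ← cyclotomic_eq_minpoly_rat hζ (Nat.pos_of_ne_zero hN),
      ← cyclotomic_eq_minpoly_rat hζu (Nat.pos_of_ne_zero hN)]
  have hnorm : Normal ℚ E := by
    have : IsAlgClosure ℚ E := ⟨inferInstance, inferInstance⟩
    exact IsAlgClosure.normal ℚ E
  obtain ⟨σ, hσ⟩ := isConjRoot_iff_exists_algEquiv.1 hconj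
  have : NeZero N := ⟨hN⟩
  have key : ∀ z : E, z ^ N = 1 → σ z = z ^ u := by
    intro z hz
    obtain ⟨i, -, rfl⟩ := hζ.eq_pow_of_pow_eq_one hz
    rw [map_pow, hσ]
    ring
  refine ⟨σ, fun z hz => ⟨?_, ?_⟩⟩
  · rintro ⟨n, hn, hnP, hzn⟩
    rw [key z hz]
    have h1 : orderOf z ∣ A := by
      have h2 : orderOf z ∣ A * B := by rw [← hAB]; exact orderOf_dvd_of_pow_eq_one hz
      have h3 : Nat.Coprime (orderOf z) B :=
        (hnP.dvd (orderOf_dvd_of_pow_eq_one hzn)).coprime hB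
      exact h3.dvd_of_dvd_mul_right h2
    have h4 : z ^ (u + 1) = 1 := orderOf_dvd_iff_pow_eq_one.1 (h1.trans hu1')
    refine eq_inv_of_mul_eq_one_left ?_
    rw [← pow_succ]
    exact h4
  · rintro ⟨n, hn, hnP, hzn⟩
    rw [key z hz]
    have h1 : orderOf z ∣ B := by
      have h2 : orderOf z ∣ A * B := by rw [← hAB]; exact orderOf_dvd_of_pow_eq_one hz
      have h3 : Nat.Coprime (orderOf z) A :=
        (hA.coprime (hnP.dvd (orderOf_dvd_of_pow_eq_one hzn))).symm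
      exact h3.dvd_of_dvd_mul_left h2
    have h4 : z ^ u = z ^ 1 := by
      have h5 : u ≡ 1 [MOD orderOf z] := hu2.of_dvd h1
      have hfin : IsOfFinOrder z := isOfFinOrder_iff_pow_eq_one.2 ⟨n, hn, hzn⟩
      rw [← pow_mod_orderOf z u, ← pow_mod_orderOf z 1]
      rw [h5]
    rw [h4, pow_one]

/-- the generators -/
def gens {E : Type*} [Field E] (P : Set ℕ) (d : E) : Set E :=
  {w | ∃ n, 0 < n ∧ PN Pᶜ n ∧ w ^ n = 1} ∪
    {x | ∃ z n, 0 < n ∧ PN P n ∧ z ^ n = 1 ∧ (x = z + z⁻¹ ∨ x = (z - z⁻¹) / d)}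

/-- the base field -/
noncomputable def B0 {E : Type*} [Field E] (P : Set ℕ) (d : E) : Subfield E := Subfield.closure (gens P d)

lemma fixed {p₀ : ℕ} (hp₀ : p₀.Prime) (hp₀P : p₀ ∈ P) {ζ : E} (hζ : IsPrimitiveRoot ζ p₀)
    {x : E} (hx : x ∈ B0 P (ζ - ζ⁻¹)) :
    ∃ N₀ : ℕ, N₀ ≠ 0 ∧ ∀ N : ℕ, N₀ ∣ N → ∀ σ : E ≃ₐ[ℚ] E, GA P N σ → σ x = x := by
  have hpow : ∀ {z : E} {n N : ℕ}, n ∣ N → z ^ n = 1 → z ^ N = 1 := by
    rintro z n N ⟨k, rfl⟩ h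
    rw [pow_mul, h, one_pow]
  induction hx using Subfield.closure_induction with
  | mem x hx =>
    rcases hx with ⟨n, hn, hnP, hxn⟩ | ⟨z, n, hn, hnP, hzn, h⟩
    · exact ⟨n, hn.ne', fun N hN σ hσ => (hσ x (hpow hN hxn)).2 ⟨n, hn, hnP, hxn⟩⟩
    · refine ⟨n * p₀, Nat.mul_ne_zero hn.ne' hp₀.ne_zero, fun N hN σ hσ => ?_⟩
      have e1 : σ z = z⁻¹ := (hσ z (hpow (dvd_of_mul_right_dvd hN) hzn)).1 ⟨n, hn, hnP, hzn⟩
      have e2 : σ ζ = ζ⁻¹ := (hσ ζ (hpow (dvd_of_mul_left_dvd hN) hζ.pow_eq_one)).1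
        ⟨p₀, hp₀.pos, PN.prime hp₀ hp₀P, hζ.pow_eq_one⟩
      rcases h with rfl | rfl
      · rw [map_add, map_inv₀, e1, inv_inv, add_comm]
      · rw [map_div₀, map_sub, map_sub, map_inv₀, map_inv₀, e1, e2, inv_inv, inv_inv,
          ← neg_sub z z⁻¹, ← neg_sub ζ ζ⁻¹, neg_div_neg_eq]
  | one => exact ⟨1, one_ne_zero, fun N _ σ _ => map_one σ⟩
  | add x y _ _ hx hy =>
    obtain ⟨a, ha, ha'⟩ := hx
    obtain ⟨b, hb, hb'⟩ := hy
    exact ⟨a * b, Nat.mul_ne_zero ha hb, fun N hN σ hσ => by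
      rw [map_add, ha' N (dvd_of_mul_right_dvd hN) σ hσ, hb' N (dvd_of_mul_left_dvd hN) σ hσ]⟩
  | neg x _ hx =>
    obtain ⟨a, ha, ha'⟩ := hx
    exact ⟨a, ha, fun N hN σ hσ => by rw [map_neg, ha' N hN σ hσ]⟩
  | inv x _ hx =>
    obtain ⟨a, ha, ha'⟩ := hx
    exact ⟨a, ha, fun N hN σ hσ => by rw [map_inv₀, ha' N hN σ hσ]⟩
  | mul x y _ _ hx hy =>
    obtain ⟨a, ha, ha'⟩ := hx
    obtain ⟨b, hb, hb'⟩ := hy
    exact ⟨a * b, Nat.mul_ne_zero ha hb, fun N hN σ hσ => by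
      rw [map_mul, ha' N (dvd_of_mul_right_dvd hN) σ hσ, hb' N (dvd_of_mul_left_dvd hN) σ hσ]⟩

lemma d_ne {p₀ : ℕ} (hp₀ : p₀.Prime) (hp₀2 : p₀ ≠ 2) {ζ : E} (hζ : IsPrimitiveRoot ζ p₀) :
    ζ - ζ⁻¹ ≠ 0 := by
  intro h
  have hζ0 : ζ ≠ 0 := hζ.ne_zero hp₀.ne_zero
  have h1 : ζ ^ 2 = 1 := by
    have h2 : ζ * (ζ - ζ⁻¹) = 0 := by rw [h, mul_zero]
    rw [mul_sub, mul_inv_cancel₀ hζ0] at h2
    linear_combination h2
  have h3 := hζ.dvd_of_pow_eq_one 2 h1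
  exact hp₀2 ((Nat.prime_dvd_prime_iff_eq hp₀ Nat.prime_two).1 h3)

lemma d_notMem {p₀ : ℕ} (hp₀ : p₀.Prime) (hp₀2 : p₀ ≠ 2) (hp₀P : p₀ ∈ P) {ζ : E}
    (hζ : IsPrimitiveRoot ζ p₀) : ζ - ζ⁻¹ ∉ B0 P (ζ - ζ⁻¹) := by
  intro hmem
  obtain ⟨N₀, hN₀, h⟩ := fixed hp₀ hp₀P hζ hmem
  obtain ⟨σ, hσ⟩ := exists_GA E P (N₀ * p₀) (Nat.mul_ne_zero hN₀ hp₀.ne_zero)
  have h1 := h (N₀ * p₀) (dvd_mul_right _ _) σ hσ
  have e2 : σ ζ = ζ⁻¹ := (hσ ζ (by rw [mul_comm, pow_mul, hζ.pow_eq_one, one_pow])).1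
    ⟨p₀, hp₀.pos, PN.prime hp₀ hp₀P, hζ.pow_eq_one⟩
  rw [map_sub, map_inv₀, e2, inv_inv] at h1
  apply d_ne hp₀ hp₀2 hζ
  have h2 : (2 : E) * (ζ - ζ⁻¹) = 0 := by linear_combination -h1
  exact (mul_eq_zero.1 h2).resolve_left two_ne_zero

end Pool.Agent.Y58.TFP
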