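import Pool.Agent.Y58.TFP.Base

set_option autoImplicit false
set_option linter.unusedSectionVars false

/-!
The field over which the group is defined.
-/

namespace Pool.Agent.Y58.TFP

open Polynomial Pool.Agent.Y58.TFS QuaternionAlgebra

variable {Ω : Type*} [Field Ω] [IsAlgClosed Ω] [Uncountable Ω] [CharZero Ω]

/-- from an anisotropic binary form to a quaternion division algebra -/
lemma aniso_of_nonsq {C : Subfield Ω} {α β : Ω} (hα : α ∈ C) (hβ : Transcendental C β)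
    (ns : ∀ x ∈ C, x ^ 2 ≠ α) : Aniso α β (adj C β) := by
  set K := adj C β with hK
  have hβK : β ∈ K := self_mem_adj C β
  have h1K : C ≤ K := le_adj C β
  have ns2 : ∀ x ∈ K, x ^ 2 ≠ α := nonsq_adj hβ hα ns
  have hnz : ∀ x ∈ K, ∀ y ∈ K, x ^ 2 - α * y ^ 2 = 0 → x = 0 ∧ y = 0 := by
    intro x hx y hy h
    by_cases hy0 : y = 0
    · rw [hy0] at h
      refine ⟨?_, hy0⟩
      have : x ^ 2 = 0 := by linear_combination h
      exact (pow_eq_zero_iff two_ne_zero).1 this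
    · exfalso
      refine ns2 (x / y) (K.div_mem hx hy) ?_
      field_simp
      linear_combination h
  intro x hx hn
  obtain ⟨h0, h1, h2, h3⟩ := hx
  have hn' : (x.re ^ 2 - α * x.imI ^ 2) = β * (x.imJ ^ 2 - α * x.imK ^ 2) := by
    rw [nr] at hn
    linear_combination hn
  by_cases hz : x.imJ ^ 2 - α * x.imK ^ 2 = 0
  · obtain ⟨e2, e3⟩ := hnz _ h2 _ h3 hz
    rw [hz, mul_zero] at hn'
    obtain ⟨e0, e1⟩ := hnz _ h0 _ h1 hn'
    ext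
    · simpa using e0
    · simpa using e1
    · simpa using e2
    · simpa using e3
  · exfalso
    have hαK : α ∈ K := h1K hα
    have hdK : x.imJ ^ 2 - α * x.imK ^ 2 ∈ K :=
      K.sub_mem (K.pow_mem h2 2) (K.mul_mem hαK (K.pow_mem h3 2))
    refine parity hβ (δ := ⟨α, hα⟩) (r := 0) ?_ 1 (by simp)
      (x := (x.re * x.imJ - α * x.imI * x.imK) / (x.imJ ^ 2 - α * x.imK ^ 2))
      (y := (x.re * x.imK - x.imI * x.imJ) / (x.imJ ^ 2 - α * x.imK ^ 2)) ?_ ?_ ?_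
    · intro y hy
      exact ns y y.2 (congrArg (fun x : C => (x : Ω)) hy)
    · exact K.div_mem (K.sub_mem (K.mul_mem h0 h2) (K.mul_mem (K.mul_mem hαK h1) h3)) hdK
    · exact K.div_mem (K.sub_mem (K.mul_mem h0 h3) (K.mul_mem h1 h2)) hdK
    · simp only [map_mul, map_sub, aeval_X, map_zero, map_one, mul_one, sub_zero]
      field_simp
      linear_combination (x.imJ ^ 2 - α * x.imK ^ 2) * hn'

/-- the base field -/
theorem base_field {P : Set ℕ} (hP : ∀ p ∈ P, p.Prime ∧ p ≠ 2) {p₀ : ℕ} (hp₀P : p₀ ∈ P) :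
    ∃ (d β : Ω) (K : Subfield Ω), d ^ 2 ∈ K ∧ β ∈ K ∧ iu ∈ K ∧
      (∀ (z : Ω) (n : ℕ), 0 < n → PN Pᶜ n → z ^ n = 1 → z ∈ K) ∧
      (∀ (z : Ω) (n : ℕ), 0 < n → PN P n → z ^ n = 1 → z + z⁻¹ ∈ K ∧ (z - z⁻¹) / d ∈ K) ∧
      Aniso (d ^ 2) β K ∧ Countable K := by
  let E := AlgebraicClosure ℚ
  have hEalg : Algebra.IsAlgebraic ℚ E := by
    refine ⟨fun x => ?_⟩
    obtain ⟨p, hp, hpx⟩ := (AlgebraicClosure.isAlgebraic ℚ).isAlgebraic x
    refine ⟨p, hp, ?_⟩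
    rw [aeval_def] at hpx ⊢
    convert hpx using 2
    exact Subsingleton.elim _ _
  let φ : E →+* Ω := (IsAlgClosed.lift (R := ℚ) (S := E) (M := Ω)).toRingHom
  obtain ⟨hp₀, hp₀2⟩ := hP p₀ hp₀P
  obtain ⟨ζ, hζ⟩ := exists_prim E p₀ hp₀.ne_zero
  set C : Subfield Ω := (B0 P (ζ - ζ⁻¹)).map φ with hC
  have hcC : Countable C := by
    have h1 : Countable E := by
      have h2 := Algebraic.countable ℚ E
      have h3 : {x : E | IsAlgebraic ℚ x} = Set.univ := by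
        ext x
        simp only [Set.mem_setOf_eq, Set.mem_univ, iff_true]
        exact hEalg.isAlgebraic x
      rw [h3] at h2
      exact Set.countable_univ_iff.1 h2
    have h4 : Set.Countable (C : Set Ω) := by
      refine (Set.countable_range φ).mono ?_
      rintro x ⟨y, -, rfl⟩
      exact ⟨y, rfl⟩
    exact h4.to_subtype
  have hroots : ∀ (z : Ω) (n : ℕ), 0 < n → z ^ n = 1 → ∃ y : E, y ^ n = 1 ∧ φ y = z := by
    intro z n hn hz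
    obtain ⟨ξ, hξ⟩ := exists_prim E n hn.ne'
    have : NeZero n := ⟨hn.ne'⟩
    obtain ⟨i, -, rfl⟩ := (hξ.map_of_injective φ.injective).eq_pow_of_pow_eq_one hz
    refine ⟨ξ ^ i, ?_, map_pow φ ξ i⟩
    rw [← pow_mul, mul_comm, pow_mul, hξ.pow_eq_one, one_pow]
  set d : Ω := φ (ζ - ζ⁻¹) with hd
  have hroot1 : ∀ (z : Ω) (n : ℕ), 0 < n → PN Pᶜ n → z ^ n = 1 → z ∈ C := by
    intro z n hn hnP hz
    obtain ⟨y, hy, rfl⟩ := hroots z n hn hz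
    exact ⟨y, Subfield.subset_closure (Or.inl ⟨n, hn, hnP, hy⟩), rfl⟩
  have hroot2 : ∀ (z : Ω) (n : ℕ), 0 < n → PN P n → z ^ n = 1 →
      z + z⁻¹ ∈ C ∧ (z - z⁻¹) / d ∈ C := by
    intro z n hn hnP hz
    obtain ⟨y, hy, rfl⟩ := hroots z n hn hz
    refine ⟨⟨y + y⁻¹, Subfield.subset_closure (Or.inr ⟨y, n, hn, hnP, hy, Or.inl rfl⟩), ?_⟩,
      ⟨(y - y⁻¹) / (ζ - ζ⁻¹),
        Subfield.subset_closure (Or.inr ⟨y, n, hn, hnP, hy, Or.inr rfl⟩), ?_⟩⟩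
    · rw [map_add, map_inv₀]
    · rw [map_div₀, map_sub, map_inv₀]
  have h2P : (2 : ℕ) ∉ P := fun h => (hP 2 h).2 rfl
  have hI : iu ∈ C := by
    refine hroot1 iu 4 (by norm_num) ?_ ?_
    · intro q hq hq4
      have h1 : q ∣ 2 := by
        have : q ∣ 2 ^ 2 := by norm_num; exact hq4
        exact hq.dvd_of_dvd_pow this
      rw [(Nat.prime_dvd_prime_iff_eq hq Nat.prime_two).1 h1]
      exact h2P
    · rw [show (4 : ℕ) = 2 * 2 by norm_num, pow_mul, iu_sq]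
      norm_num
  have hdC : d ∉ C := by
    rintro ⟨y, hy, hyd⟩
    have h1 := φ.injective hyd
    rw [h1] at hy
    exact d_notMem hp₀ hp₀2 hp₀P hζ hy
  have hd2 : d ^ 2 ∈ C := by
    have hζ0 : ζ ≠ 0 := hζ.ne_zero hp₀.ne_zero
    refine ⟨(ζ - ζ⁻¹) ^ 2, ?_, map_pow φ _ 2⟩
    have h1 : ζ ^ 2 + (ζ ^ 2)⁻¹ ∈ B0 P (ζ - ζ⁻¹) :=
      Subfield.subset_closure (Or.inr ⟨ζ ^ 2, p₀, hp₀.pos, PN.prime hp₀ hp₀P, by
        rw [← pow_mul, mul_comm, pow_mul, hζ.pow_eq_one, one_pow], Or.inl rfl⟩)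
    have h2 : (ζ - ζ⁻¹) ^ 2 = ζ ^ 2 + (ζ ^ 2)⁻¹ - (1 + 1) := by
      have h3 : ζ * ζ⁻¹ = 1 := mul_inv_cancel₀ hζ0
      rw [← inv_pow]
      linear_combination (-2) * h3
    change (ζ - ζ⁻¹) ^ 2 ∈ B0 P (ζ - ζ⁻¹)
    rw [h2]
    exact (B0 P _).sub_mem h1 ((B0 P _).add_mem (B0 P _).one_mem (B0 P _).one_mem)
  have hns : ∀ x ∈ C, x ^ 2 ≠ d ^ 2 := by
    intro x hx h
    rcases sq_eq_sq_iff_eq_or_eq_neg.1 h with h | h
    · exact hdC (h ▸ hx)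
    · apply hdC
      rw [← neg_neg d, ← h]
      exact C.neg_mem hx
  obtain ⟨β, hβ⟩ := exists_tr C hcC
  have hβ' : Transcendental C β := tr_mono (le_Alg C) hβ
  have hle : C ≤ adj C β := le_adj C β
  exact ⟨d, β, adj C β, hle hd2, self_mem_adj C β, hle hI,
    fun z n hn hnP hz => hle (hroot1 z n hn hnP hz),
    fun z n hn hnP hz => ⟨hle (hroot2 z n hn hnP hz).1, hle (hroot2 z n hn hnP hz).2⟩,
    aniso_of_nonsq hd2 hβ' hns, countable_adj C hcC β⟩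

theorem main_field {P : Set ℕ} (hP : ∀ p ∈ P, p.Prime ∧ p ≠ 2) {p₀ : ℕ} (hp₀P : p₀ ∈ P) :
    ∃ (α d β : Ω) (K : Subfield Ω), α = d ^ 2 ∧ Countable K ∧ α ∈ K ∧ β ∈ K ∧ iu ∈ K ∧
      (∀ (z : Ω) (n : ℕ), 0 < n → PN Pᶜ n → z ^ n = 1 → z ∈ K) ∧
      (∀ (z : Ω) (n : ℕ), 0 < n → PN P n → z ^ n = 1 → z + z⁻¹ ∈ K ∧ (z - z⁻¹) / d ∈ K) ∧
      Aniso α β K ∧
      (∀ (a : Q α β) (ν : Ω), inD K a → ν ∈ K → S1 a ν K) ∧
      (∀ a b : Q α β, inD K a → inD K b → S2 a b K) := by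
  obtain ⟨d, β, K, h1, h2, h3, h4, h4', h5, h6⟩ := base_field (Ω := Ω) hP hp₀P
  obtain ⟨K', h7, hcK, h8, h9, h10⟩ := closure_field h1 h2 h3 h5 h6
  exact ⟨d ^ 2, d, β, K', rfl, hcK, h7 h1, h7 h2, h7 h3,
    fun z n hn hnP hz => h7 (h4 z n hn hnP hz),
    fun z n hn hnP hz => ⟨h7 (h4' z n hn hnP hz).1, h7 (h4' z n hn hnP hz).2⟩, h8, h9, h10⟩

end Pool.Agent.Y58.TFP
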