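import Pool.Agent.Y58.TFP.Field

set_option autoImplicit false
set_option linter.unusedSectionVars false

/-!
Simple subgroups of `GL₃(Ω)` with prescribed odd torsion.
-/

namespace Pool.Agent.Y58.TFP

open QuaternionAlgebra Pool.Agent.Y58.TFS

/-- countable, non-trivial, the orders of the elements of finite order are the `P`-numbers, and
every element is a product of four conjugates of any given non-identity element and of its
inverse. -/
structure FineP (P : Set ℕ) (G : Type*) [Group G] : Prop where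
  ct : Countable G
  nt : Nontrivial G
  tor : ∀ n : ℕ, 0 < n → ((∃ g : G, orderOf g = n) ↔ PN P n)
  four : ∀ a b : G, a ≠ 1 → ∃ c : Fin 4 → G, (∀ i, IsConj a (c i) ∨ IsConj a⁻¹ (c i)) ∧
    b = c 0 * c 1 * c 2 * c 3

lemma FineP.of_equiv {P : Set ℕ} {G H : Type*} [Group G] [Group H] (e : G ≃* H)
    (h : FineP P G) : FineP P H := by
  have hct := h.ct
  have hnt := h.nt
  refine ⟨e.symm.injective.countable, e.symm.toEquiv.nontrivial, ?_, ?_⟩
  · intro n hn
    rw [← h.tor n hn]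
    constructor
    · rintro ⟨g, hg⟩
      exact ⟨e.symm g, by rw [← hg]; exact MulEquiv.orderOf_eq e.symm g⟩
    · rintro ⟨g, hg⟩
      exact ⟨e g, by rw [← hg]; exact MulEquiv.orderOf_eq e g⟩
  · intro a b ha
    obtain ⟨c, hc, hb⟩ := h.four (e.symm a) (e.symm b) (by
      intro h1
      apply ha
      rw [← e.apply_symm_apply a, h1, map_one])
    refine ⟨fun i => e (c i), ?_, ?_⟩
    · intro i
      rcases hc i with h1 | h1
      · left
        have := e.toMonoidHom.map_isConj h1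
        simpa using this
      · right
        have := e.toMonoidHom.map_isConj h1
        simpa using this
    · rw [← e.apply_symm_apply b, hb, map_mul, map_mul, map_mul]

lemma FineP.simple {P : Set ℕ} {G : Type*} [Group G] (h : FineP P G) : IsSimpleGroup G := by
  have hnt := h.nt
  refine { toNontrivial := hnt, eq_bot_or_eq_top_of_normal := ?_ }
  intro H hH
  by_cases hex : ∃ a ∈ H, a ≠ 1
  · right
    obtain ⟨a, ha, ha1⟩ := hex
    rw [eq_top_iff]
    intro b _
    obtain ⟨c, hc, hb⟩ := h.four a b ha1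
    have hcH : ∀ i, c i ∈ H := by
      intro i
      rcases hc i with h1 | h1
      · obtain ⟨g, hg⟩ := isConj_iff.1 h1
        rw [← hg]
        exact hH.conj_mem a ha g
      · obtain ⟨g, hg⟩ := isConj_iff.1 h1
        rw [← hg]
        exact hH.conj_mem _ (H.inv_mem ha) g
    rw [hb]
    exact H.mul_mem (H.mul_mem (H.mul_mem (hcH 0) (hcH 1)) (hcH 2)) (hcH 3)
  · left
    push Not at hex
    rw [eq_bot_iff]
    intro g hg
    exact Subgroup.mem_bot.2 (hex g hg)

/-- such a group is not abelian -/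
lemma FineP.nonab {P : Set ℕ} {G : Type*} [Group G] (h : FineP P G) :
    ∃ a b : G, a * b ≠ b * a := by
  by_contra hcon
  push Not at hcon
  have hcc : ∀ a c : G, IsConj a c → c = a := by
    intro a c hac
    obtain ⟨g, hg⟩ := isConj_iff.1 hac
    rw [← hg, hcon g a]
    group
  have h15 : ∀ a : G, a ^ 15 = 1 := by
    intro a
    by_cases ha : a = 1
    · rw [ha, one_pow]
    obtain ⟨c, hc, hb⟩ := h.four a a ha
    have hc' : ∀ i, ∃ e : ℤ, c i = a ^ e ∧ (e = 1 ∨ e = -1) := by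
      intro i
      rcases hc i with h1 | h1
      · exact ⟨1, by rw [hcc _ _ h1, zpow_one], Or.inl rfl⟩
      · exact ⟨-1, by rw [hcc _ _ h1, zpow_neg_one], Or.inr rfl⟩
    choose e he he' using hc'
    have h1 : a ^ (e 0 + e 1 + e 2 + e 3) = a := by
      rw [zpow_add, zpow_add, zpow_add, ← he, ← he, ← he, ← he]
      exact hb.symm
    have h2 : a ^ (e 0 + e 1 + e 2 + e 3 - 1) = 1 := by
      rw [zpow_sub, h1, zpow_one, mul_inv_cancel]
    have h3 : (e 0 + e 1 + e 2 + e 3 - 1) ∣ 15 := by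
      rcases he' 0 with h0 | h0 <;> rcases he' 1 with h1 | h1 <;> rcases he' 2 with h2 | h2 <;>
        rcases he' 3 with h3 | h3 <;> rw [h0, h1, h2, h3] <;> decide
    obtain ⟨k, hk⟩ := h3
    have h4 : a ^ (15 : ℤ) = 1 := by
      rw [hk, zpow_mul, h2, one_zpow]
    exact_mod_cast h4
  have hnt := h.nt
  obtain ⟨a, ha⟩ := exists_ne (1 : G)
  have h1 : orderOf a ∣ 15 := orderOf_dvd_of_pow_eq_one (h15 a)
  have hpos : 0 < orderOf a := Nat.pos_of_dvd_of_pos h1 (by norm_num)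
  have hPN : PN P (orderOf a) := (h.tor _ hpos).1 ⟨a, rfl⟩
  obtain ⟨g, hg⟩ := (h.tor (orderOf a * orderOf a) (Nat.mul_pos hpos hpos)).2 (hPN.mul hPN)
  have h2 : orderOf a * orderOf a ∣ 15 := by
    rw [← hg]
    exact orderOf_dvd_of_pow_eq_one (h15 g)
  have h3 : orderOf a ≠ 1 := fun h4 => ha (orderOf_eq_one_iff.1 h4)
  have h4 : orderOf a ≤ 15 := Nat.le_of_dvd (by norm_num) h1
  generalize orderOf a = k at *
  interval_cases k <;> first | omega | (revert h2; decide)

section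

variable {Ω : Type*} [Field Ω] [IsAlgClosed Ω] [Uncountable Ω] [CharZero Ω]

variable {α β : Ω} {K : Subfield Ω}

/-- torsion elements whose eigenvalues lie in `K` are scalar -/
lemma torsion_scalar (han : Aniso α β K)
    {x : Q α β} (hx : inD K x) (hx1 : nr x = 1) {n : ℕ}
    (hroot : ∀ z : Ω, z ^ n = 1 → z ∈ K) (hxn : x ^ n = 1) : x.im = 0 := by
  obtain ⟨s, hs⟩ := exists_sq (x.re ^ 2 - 1)
  set lam : Ω := x.re + s with hlam
  have hl0 : nr (x - (lam : Q α β)) = 0 := by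
    rw [nr_sub_coe, hx1, hlam]
    linear_combination hs
  have hcomm : Commute x ((lam : Ω) : Q α β) := (coe_comm lam x).symm
  have h1 := hcomm.mul_geom_sum₂ n
  have h2 := congrArg nr h1
  rw [nr_mul, hl0, zero_mul, hxn] at h2
  have h3 : ((lam : Ω) : Q α β) ^ n = ((lam ^ n : Ω) : Q α β) := by
    exact (QuaternionAlgebra.coe_pow _ _).symm
  rw [h3] at h2
  have h4 : nr ((1 : Q α β) - ((lam ^ n : Ω) : Q α β)) = (1 - lam ^ n) ^ 2 := by
    rw [nr_sub_coe, nr_one]
    simp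
    ring
  rw [h4] at h2
  have h5 : lam ^ n = 1 := by
    have := (pow_eq_zero_iff two_ne_zero).1 h2.symm
    exact (sub_eq_zero.1 this).symm
  have hlK : lam ∈ K := hroot lam h5
  have h6 := han _ (inD_sub hx (inD_coe hlK)) hl0
  rw [sub_eq_zero.1 h6]
  exact im_coe' _

/-- the powers of an element of the maximal subfield -/
lemma pow_cos {d z : Ω} (hα : α = d ^ 2) (hd : d ≠ 0) (hz : z ≠ 0) (k : ℕ) :
    (⟨(z + z⁻¹) / 2, (z - z⁻¹) / (2 * d), 0, 0⟩ : Q α β) ^ k =
      ⟨(z ^ k + (z ^ k)⁻¹) / 2, (z ^ k - (z ^ k)⁻¹) / (2 * d), 0, 0⟩ := by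
  have h2 : (2 : Ω) ≠ 0 := two_ne_zero
  induction k with
  | zero =>
    rw [pow_zero, pow_zero]
    ext
    · simp
    · simp
    · simp
    · simp
  | succ k ih =>
    rw [pow_succ, ih, pow_succ]
    have hzk : z ^ k ≠ 0 := pow_ne_zero _ hz
    ext
    · simp [hα]
      field_simp
      ring
    · simp
      field_simp
      ring
    · simp
    · simp

theorem exists_fineP_nonempty {P : Set ℕ} (hP : ∀ p ∈ P, p.Prime ∧ p ≠ 2) {p₀ : ℕ}
    (hp₀P : p₀ ∈ P) :
    ∃ (G : Subgroup (Matrix.GeneralLinearGroup (Fin 3) Ω)) (K : Subfield Ω),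
    Countable K ∧ (∀ g ∈ G, ∀ i j, (g : Matrix (Fin 3) (Fin 3) Ω) i j ∈ K) ∧ FineP P G := by
  obtain ⟨α, d, β, K, hαd, hcK, hα, hβ, hI, hroot, hroot2, han, h1, h2⟩ :=
    main_field (Ω := Ω) hP hp₀P
  have hα0 := α_ne han hα
  have hβ0 := β_ne han hα
  have hd0 : d ≠ 0 := fun h => hα0 (by rw [hαd, h]; ring)
  have h2K : (2 : Ω) ∈ K := by
    rw [show (2 : Ω) = 1 + 1 by norm_num]
    exact K.add_mem K.one_mem K.one_mem
  have h2P : (2 : ℕ) ∉ P := fun h => (hP 2 h).2 rfl
  let Φ : (Q α β)ˣ →* Matrix.GeneralLinearGroup (Fin 3) Ω :=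
    Units.map (ad (α := α) (β := β))
  have hΦ1 : ∀ u ∈ G1 K hα hβ, Φ u = 1 → (u : Q α β).im = 0 := by
    intro u hu h
    exact im_of_ad hα0 hβ0 hu.2 (congrArg Units.val h)
  have hΦ2 : ∀ u ∈ G1 K hα hβ, (u : Q α β).im = 0 → Φ u = 1 := by
    intro u hu h
    apply Units.ext
    exact ad_of_im hu.2 h
  have hent : ∀ g ∈ (G1 K hα hβ).map Φ, ∀ i j, (g : Matrix (Fin 3) (Fin 3) Ω) i j ∈ K := by
    rintro g ⟨u, hu, rfl⟩ i j
    have hcol : ∀ e : Q α β, inD K e →
        inD K ((u : Q α β) * e * star (u : Q α β)) := fun e he =>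
      inD_mul hα hβ (inD_mul hα hβ hu.1 he) (inD_star hu.1)
    have c1 := hcol ⟨0, 1, 0, 0⟩ ⟨K.zero_mem, K.one_mem, K.zero_mem, K.zero_mem⟩
    have c2 := hcol ⟨0, 0, 1, 0⟩ ⟨K.zero_mem, K.zero_mem, K.one_mem, K.zero_mem⟩
    have c3 := hcol ⟨0, 0, 0, 1⟩ ⟨K.zero_mem, K.zero_mem, K.zero_mem, K.one_mem⟩
    change C3 (u : Q α β) i j ∈ K
    obtain ⟨-, c11, c12, c13⟩ := c1
    obtain ⟨-, c21, c22, c23⟩ := c2
    obtain ⟨-, c31, c32, c33⟩ := c3
    fin_cases i <;> fin_cases j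
    · exact c11
    · exact c21
    · exact c31
    · exact c12
    · exact c22
    · exact c32
    · exact c13
    · exact c23
    · exact c33
  -- elements of every `P`-order
  have hex : ∀ n : ℕ, 0 < n → PN P n → ∃ g : (G1 K hα hβ).map Φ, orderOf g = n := by
    intro n hn hnP
    have hodd : ¬ 2 ∣ n := fun h => h2P (hnP 2 Nat.prime_two h)
    have hco : Nat.Coprime n 2 := by
      rw [Nat.coprime_comm]
      exact (Nat.Prime.coprime_iff_not_dvd Nat.prime_two).2 hodd
    have : NeZero n := ⟨hn.ne'⟩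
    obtain ⟨z, hz⟩ := exists_prim Ω n hn.ne'
    have hz0 : z ≠ 0 := hz.ne_zero hn.ne'
    obtain ⟨m1, m2⟩ := hroot2 z n hn hnP hz.pow_eq_one
    set x : Q α β := ⟨(z + z⁻¹) / 2, (z - z⁻¹) / (2 * d), 0, 0⟩ with hx
    have hxD : inD K x := by
      refine ⟨K.div_mem m1 h2K, ?_, K.zero_mem, K.zero_mem⟩
      have h3 : (z - z⁻¹) / (2 * d) = (z - z⁻¹) / d / 2 := by
        rw [div_div, mul_comm]
      change (z - z⁻¹) / (2 * d) ∈ K
      rw [h3]
      exact K.div_mem m2 h2K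
    have hx1 : nr x = 1 := by
      simp only [nr, hx, hαd]
      field_simp
      ring
    have hxne : nr x ≠ 0 := by rw [hx1]; exact one_ne_zero
    have hxG : mkU x hxne ∈ G1 K hα hβ := ⟨hxD, hx1⟩
    refine ⟨⟨Φ (mkU x hxne), Subgroup.mem_map_of_mem _ hxG⟩, ?_⟩
    have key : ∀ k : ℕ, (⟨Φ (mkU x hxne), Subgroup.mem_map_of_mem _ hxG⟩ :
        (G1 K hα hβ).map Φ) ^ k = 1 ↔ n ∣ k := by
      intro k
      have e1 : (((mkU x hxne) ^ k : (Q α β)ˣ) : Q α β) =
          ⟨(z ^ k + (z ^ k)⁻¹) / 2, (z ^ k - (z ^ k)⁻¹) / (2 * d), 0, 0⟩ := by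
        rw [Units.val_pow_eq_pow_val, mkU_val, hx, pow_cos hαd hd0 hz0]
      have e2 : (⟨Φ (mkU x hxne), Subgroup.mem_map_of_mem _ hxG⟩ :
          (G1 K hα hβ).map Φ) ^ k = 1 ↔ Φ ((mkU x hxne) ^ k) = 1 := by
        rw [Subtype.ext_iff, map_pow]
        rfl
      have hzk : z ^ k ≠ 0 := pow_ne_zero _ hz0
      have hkG := (G1 K hα hβ).pow_mem hxG k
      rw [e2]
      constructor
      · intro h
        have h3 := congrArg QuaternionAlgebra.imI (hΦ1 _ hkG h)
        rw [e1] at h3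
        simp only [imI_im, imI_zero, div_eq_zero_iff] at h3
        rcases h3 with h3 | h3
        · have h4 : z ^ (k * 2) = 1 := by
            rw [pow_mul]
            have h5 : z ^ k * (z ^ k - (z ^ k)⁻¹) = 0 := by rw [h3, mul_zero]
            rw [mul_sub, mul_inv_cancel₀ hzk] at h5
            linear_combination h5
          exact hco.dvd_of_dvd_mul_right (hz.dvd_of_pow_eq_one _ h4)
        · exact absurd h3 (mul_ne_zero two_ne_zero hd0)
      · intro h
        apply hΦ2 _ hkG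
        rw [e1, (hz.pow_eq_one_iff_dvd k).2 h]
        ext <;> simp
    exact Nat.dvd_antisymm (orderOf_dvd_of_pow_eq_one ((key n).2 dvd_rfl))
      ((key _).1 (pow_orderOf_eq_one _))
  refine ⟨(G1 K hα hβ).map Φ, K, hcK, hent, ?_, ?_, ?_, ?_⟩
  · let f : (G1 K hα hβ).map Φ → (Fin 3 → Fin 3 → K) := fun g i j => ⟨_, hent g.1 g.2 i j⟩
    have hf : Function.Injective f := by
      intro g h hgh
      apply Subtype.ext
      apply Units.ext
      ext i j
      exact congrArg Subtype.val (congrFun (congrFun hgh i) j)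
    exact hf.countable
  · obtain ⟨g, hg⟩ := hex p₀ (hP p₀ hp₀P).1.pos (PN.prime (hP p₀ hp₀P).1 hp₀P)
    refine ⟨⟨g, 1, ?_⟩⟩
    rintro rfl
    rw [orderOf_one] at hg
    exact (hP p₀ hp₀P).1.ne_one hg.symm
  · intro n hn
    refine ⟨?_, hex n hn⟩
    rintro ⟨g, hg⟩ q hq hqn
    by_contra hqP
    obtain ⟨m, rfl⟩ := hqn
    have hm : 0 < m := Nat.pos_of_ne_zero fun h => by rw [h, mul_zero] at hn; exact lt_irrefl _ hn
    obtain ⟨u, hu, hug⟩ := (g ^ m).2
    have h3 : (g ^ m) ^ q = 1 := by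
      rw [← pow_mul, mul_comm, ← hg]
      exact pow_orderOf_eq_one g
    have h4 : Φ (u ^ q) = 1 := by
      rw [map_pow]
      change Φ u = _ at hug
      rw [hug]
      exact congrArg Subtype.val h3
    have hun : u ^ q ∈ G1 K hα hβ := (G1 K hα hβ).pow_mem hu q
    have h5 := hΦ1 _ hun h4
    have h6 := sq_one_of_im hun.2 h5
    have h7 : ((u : (Q α β)ˣ) : Q α β) ^ (q * 2) = 1 := by
      rw [pow_mul, pow_two, ← Units.val_pow_eq_pow_val]
      exact h6
    have hq2 : PN Pᶜ (q * 2) := (PN.prime (P := Pᶜ) hq hqP).mul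
      (PN.prime (P := Pᶜ) Nat.prime_two h2P)
    have h8 := torsion_scalar han hu.1 hu.2
      (fun z hz => hroot z (q * 2) (by have := hq.pos; omega) hq2 hz) h7
    have h9 : g ^ m = 1 := by
      apply Subtype.ext
      rw [← hug]
      exact hΦ2 u hu h8
    have h10 := orderOf_dvd_of_pow_eq_one h9
    rw [hg] at h10
    have h11 := Nat.le_of_dvd hm h10
    have h12 : 1 * m < q * m := Nat.mul_lt_mul_of_pos_right hq.one_lt hm
    omega
  · rintro ⟨a, ha⟩ ⟨b, hb⟩ hne
    obtain ⟨u, hu, rfl⟩ := ha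
    obtain ⟨v, hv, rfl⟩ := hb
    have hui : (u : Q α β).im ≠ 0 := by
      intro h
      exact hne (Subtype.ext (hΦ2 u hu h))
    obtain ⟨c, hc, hvc⟩ := four_conj hI han h1 h2 hu hui hv
    have hcG : ∀ i, c i ∈ G1 K hα hβ := fun i => Cs_G1 hu _ (hc i)
    refine ⟨fun i => ⟨Φ (c i), Subgroup.mem_map_of_mem _ (hcG i)⟩, ?_, ?_⟩
    · intro i
      obtain ⟨g, hg, h | h⟩ := hc i
      · left
        refine isConj_iff.2 ⟨⟨Φ g, Subgroup.mem_map_of_mem _ hg⟩, ?_⟩
        apply Subtype.ext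
        change Φ g * Φ u * (Φ g)⁻¹ = Φ (c i)
        rw [h, map_mul, map_mul, map_inv]
      · right
        refine isConj_iff.2 ⟨⟨Φ g, Subgroup.mem_map_of_mem _ hg⟩, ?_⟩
        apply Subtype.ext
        change Φ g * (Φ u)⁻¹ * (Φ g)⁻¹ = Φ (c i)
        rw [h, map_mul, map_mul, map_inv, map_inv]
    · apply Subtype.ext
      change Φ v = Φ (c 0) * Φ (c 1) * Φ (c 2) * Φ (c 3)
      rw [← map_mul, ← map_mul, ← map_mul]
      rcases hvc with h | h
      · rw [← h]
      · rw [← h]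
        have hneg : Φ (-1) = 1 := by
          apply Units.ext
          change ad ((-1 : (Q α β)ˣ) : Q α β) = 1
          rw [Units.val_neg, Units.val_one]
          exact ad_neg_one
        rw [← neg_one_mul v, map_mul, hneg, one_mul]

end

end Pool.Agent.Y58.TFP
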